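import Pool.Agent.H998_RN.WDen

/-!
# Almost primes on Collatz trajectories

Call `m` rough of level `u` if all prime factors `p` of `m` satisfy `p ^ u > m`; then `m` has fewer
than `u` prime factors.

1. (Almost bounded almost prime values, in every window.) For all `ε > 0`, `M` there are `u`, `c > 0`
   and `Z₀` such that for all `Z ≥ Z₀` and `N ≥ Z` the Collatz trajectories of all but `ε N` of the
   integers `n ≤ N` have at least `M` distinct terms `m`, `Z ^ c ≤ m ≤ Z`, that are rough of level `u`.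
2. (Density one.) If `f, g → ∞`, the Collatz trajectory of almost every `n` has a term `m`,
   `1 < m ≤ f(n)`, all of whose prime factors `p` satisfy `p ^ g(n) > m`.
3. (The law of large numbers.) Let `v_u(n; Y)` be the number of the rough terms of level `u` of the
   trajectory of `n` before its first term below `Y` (and `v_{u,r}(n; Y)`, `r = 1, 2`, the number of
   those `≡ r` modulo `3`). For every `ε > 0` and every `u ≥ u₀(ε)`: uniformly for `Y ≥ Y₀` and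
   `log N ≥ e^{ℓ₀} log Y`, all but `ε N` of the integers `n ≤ N` have
     `|v_{u,r}(n; Y) - κ log (log N / log Y)| ≤ ε κ log (log N / log Y)`,
   where `κ = 3 e^{-γ} u / log (4/3)` for `r = 0` (no condition modulo `3`) and
   `κ = r e^{-γ} u / log (4/3)` for `r = 1, 2`.
4. For all `ε > 0`, `M` there is a `u` such that for every `Y` and large `N` the trajectories of all
   but `ε N` of the integers `n ≤ N` have at least `M log log N` distinct terms `m ≥ Y` that are rough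
   of level `u`.
-/

set_option autoImplicit false

namespace Pool.Agent.Results.MP_d02c56_nt.AlmostPrimesOnTrajectories

open Real Filter Topology

/-- The Collatz map on the nonnegative integers. -/
def C (n : ℕ) : ℕ := if n % 2 = 0 then n / 2 else 3 * n + 1

/-- Every prime factor `p` of `m` satisfies `m < p ^ u`. -/
def Rough (u m : ℕ) : Prop := ∀ p : ℕ, p.Prime → p ∣ m → m < p ^ u

/-- The times `k` at which the trajectory of `n` is at a number that is rough of level `u` (and, if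
`r ≠ 0`, is `≡ r` modulo `3`), up to its first term below `Y`. -/
def RoughTimes (u r : ℕ) (Y : ℝ) (n : ℕ) : Set ℕ :=
  {k : ℕ | Rough u (C^[k] n) ∧ (r = 0 ∨ C^[k] n % 3 = r) ∧ ∀ j ≤ k, Y ≤ ((C^[j] n : ℕ) : ℝ)}

/-- The expected density: `3 e^{-γ} u / log (4/3)` for `r = 0`, `r e^{-γ} u / log (4/3)` for
`r = 1, 2`. -/
noncomputable def kappa (u r : ℕ) : ℝ :=
  (if r = 0 then 3 else (r : ℝ)) * (exp (-eulerMascheroniConstant) * u) / log (4 / 3)

/-- The trajectory of `n` has at least `x` distinct terms `m ≥ Y` that are rough of level `u` and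
have fewer than `u` prime factors, counted with multiplicity. -/
def ManyRough (u : ℕ) (x Y : ℝ) (n : ℕ) : Prop :=
  ∃ s : Finset ℕ, x ≤ s.card ∧ ∀ m ∈ s, Y ≤ (m : ℝ) ∧ ArithmeticFunction.cardFactors m < u ∧
    Rough u m ∧ ∃ k, C^[k] n = m

/-- The trajectory of `n` has at least `x` distinct terms `m` with `Y ≤ m ≤ Z` that are rough of
level `u` and have fewer than `u` prime factors, counted with multiplicity. -/
def RoughIn (u : ℕ) (x Y Z : ℝ) (n : ℕ) : Prop :=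
  ∃ s : Finset ℕ, x ≤ s.card ∧ ∀ m ∈ s, Y ≤ (m : ℝ) ∧ (m : ℝ) ≤ Z ∧
    ArithmeticFunction.cardFactors m < u ∧ Rough u m ∧ ∃ k, C^[k] n = m

theorem result :
    (∀ ε : ℝ, 0 < ε → ∀ M : ℝ, ∃ u : ℕ, ∃ c Z₀ : ℝ, 0 < c ∧ 1 < Z₀ ∧
      ∀ (Z : ℝ) (N : ℕ), Z₀ ≤ Z → Z ≤ N →
        (Set.ncard {n : ℕ | 1 ≤ n ∧ n ≤ N ∧ ¬ RoughIn u M (Z ^ c) Z n} : ℝ) ≤ ε * N) ∧
    (∀ f g : ℕ → ℝ, Tendsto f atTop atTop → Tendsto g atTop atTop →
      Tendsto (fun N : ℕ => (Set.ncard {n : ℕ | 1 ≤ n ∧ n ≤ N ∧ ¬ ∃ m : ℕ, (∃ k, C^[k] n = m) ∧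
        1 < m ∧ (m : ℝ) ≤ f n ∧ ∀ p : ℕ, p.Prime → p ∣ m → (m : ℝ) < (p : ℝ) ^ (g n)} : ℝ) / N)
        atTop (𝓝 0)) ∧
    (∀ ε : ℝ, 0 < ε → ∃ u₀ : ℕ, ∀ u : ℕ, u₀ ≤ u → ∃ Y₀ ℓ₀ : ℝ, 1 < Y₀ ∧ 0 < ℓ₀ ∧
      ∀ r : ℕ, r ≤ 2 → ∀ (Y : ℝ) (N : ℕ), Y₀ ≤ Y → ℓ₀ ≤ log (log N / log Y) →
        (Set.ncard {n : ℕ | 1 ≤ n ∧ n ≤ N ∧ ¬ ∃ v : ℕ, (RoughTimes u r Y n).encard = v ∧
          |v - kappa u r * log (log N / log Y)| ≤ ε * (kappa u r * log (log N / log Y))} : ℝ)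
          ≤ ε * N) ∧
    (∀ ε : ℝ, 0 < ε → ∀ M : ℝ, ∃ u : ℕ, ∀ Y : ℝ, ∃ N₀ : ℕ, ∀ N : ℕ, N₀ ≤ N →
      (Set.ncard {n : ℕ | 1 ≤ n ∧ n ≤ N ∧ ¬ ManyRough u (M * log (log N)) Y n} : ℝ) ≤ ε * N) := by
  refine ⟨?_, ?_, ?_, ?_⟩
  · intro ε hε M
    exact H998_RN.window_almost hε M
  · intro f g hf hg
    exact H998_RN.almost_bounded hf hg
  · intro ε hε
    obtain ⟨u₀, _, h⟩ := H998_RN.lln_col hε
    refine ⟨u₀, fun u hu => ?_⟩
    obtain ⟨Y₀, ℓ₀, h1, _, h2, h3⟩ := h u hu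
    exact ⟨Y₀, ℓ₀, by linarith, by linarith, h3⟩
  · intro ε hε M
    exact H998_RN.many_almost hε M

end Pool.Agent.Results.MP_d02c56_nt.AlmostPrimesOnTrajectories
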