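import Pool.Agent.H998_EK.Box
import Pool.Agent.H998_TP.WinI

/-!
# The Erdős–Kac law along almost every Collatz trajectory, with its transitions

Let `T` be the accelerated Collatz map on the integers and let `f` be a real additive function with
`|f p| ≤ 1` at the primes and `∑ f(p)² / p = ∞`, for instance the number of prime factors, with or
without multiplicity.

1. (Descent to almost bounded numbers of prescribed type.) Given intervals `(u₀, v₀], ..., (u_J, v_J]`,
   `0 < α < 1` and `ε > 0`, for all `N ≥ Z ≥ Z₀` all but at most `ε N` of the integers `n ≠ 0`, `|n| ≤ N`,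
   have a trajectory with a term `m`, `Z ^ α ≤ |m| ≤ Z`, such that for `i = 0, ..., J` the value
   `f |T^i m|`, normalised with the mean value `A` and the deviation `B` which belong to its own size,
   lies in `(u_i, v_i]`.
2. (The law.) Along the trajectories of almost all integers `n` the normalised values of `f |T^k n|` are
   distributed like a standard normal variable, at every scale down to almost bounded values: this holds,
   uniformly for `N ≥ Z → ∞`, for almost all `|n| ≤ N` from the first term below `Z` on, at every time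
   scale `ε log Z`, down to the size `Z ^ o(1)`, even with arbitrary bounded weights which depend on the
   time. Moreover the joint distribution of the normalised values at any number of consecutive times is
   determined: it is that of the Markov chain which at each step keeps its value with probability
   `1 / 2` and takes a fresh independent standard normal value with probability `1 / 2`.
3. Both hold for the number of prime factors, with or without multiplicity, normalised with `log log`
   and its square root.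
-/

set_option autoImplicit false

namespace Pool.Agent.Results.MP_d02c56_nt.ErdosKacAlongOrbits

open Finset Filter Topology
open Pool.Agent

/-- The accelerated Collatz map on the integers. -/
def T (x : ℤ) : ℤ := if x % 2 = 0 then x / 2 else (3 * x + 1) / 2

/-- Along the trajectories of almost all integers the function `g` has the mean value `L`, at every
scale: for every `κ < 2 / log (4 / 3)` and `ε > 0` there is a `Z₀` such that for all `N ≥ Z ≥ Z₀` and all
weights `w` of absolute value at most one, all but at most `ε N` of the integers `n ≠ 0` with `|n| ≤ N`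
have a trajectory with a term of absolute value less than `Z` and are such that, `T^k n` being the first
such term, the weighted sum of `g (T^i (T^k n)) - L` over `i < t` is at most `ε log Z` in absolute value
for all `t ≤ κ log Z`. -/
def HasMeanAlongOrbits (g : ℤ → ℝ) (L : ℝ) : Prop :=
  ∀ κ ε : ℝ, κ < 2 / Real.log (4 / 3) → 0 < ε → ∃ Z₀ : ℝ, 2 ≤ Z₀ ∧ ∀ (Z : ℝ) (N : ℕ), Z₀ ≤ Z → Z ≤ N →
    ∀ w : ℕ → ℝ, (∀ i, |w i| ≤ 1) →
    (Set.ncard {n : ℤ | n ≠ 0 ∧ |n| ≤ N ∧ ¬ ∃ k : ℕ, |((T^[k] n : ℤ) : ℝ)| < Z ∧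
      (∀ j < k, Z ≤ |((T^[j] n : ℤ) : ℝ)|) ∧ ∀ t : ℕ, (t : ℝ) ≤ κ * Real.log Z →
        |∑ i ∈ range t, w i * (g (T^[i] (T^[k] n)) - L)| ≤ ε * Real.log Z} : ℝ) ≤ ε * N

/-- The standard normal distribution function. -/
noncomputable def Phi (u : ℝ) : ℝ := (ProbabilityTheory.gaussianReal 0 1).real (Set.Iic u)

/-- The expected size `∑ f(p) / p` of `f` at the integers of size `N`. -/
noncomputable def A (f : ℕ → ℝ) (N : ℕ) : ℝ := ∑ p ∈ (Icc 1 N).filter Nat.Prime, f p / p

/-- The expected square `∑ f(p)² / p` of the deviation of `f` at the integers of size `N`. -/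
noncomputable def B2 (f : ℕ → ℝ) (N : ℕ) : ℝ := ∑ p ∈ (Icc 1 N).filter Nat.Prime, f p ^ 2 / p

/-- `f` is additive, bounded by one at the primes (but arbitrary at their powers), and the expected
deviation of `f` tends to infinity. -/
structure Admissible (f : ℕ → ℝ) : Prop where
  add : ∀ m n : ℕ, 1 ≤ m → 1 ≤ n → Nat.Coprime m n → f (m * n) = f m + f n
  le_one : ∀ p : ℕ, p.Prime → |f p| ≤ 1
  unbounded : Tendsto (B2 f) atTop atTop

/-- `a` and `b` agree, to the precision which matters, with `A` and with the deviation. -/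
structure Normalising (f a b : ℕ → ℝ) : Prop where
  centre : Tendsto (fun N => (a N - A f N) / Real.sqrt (B2 f N)) atTop (𝓝 0)
  scale : Tendsto (fun N => b N / Real.sqrt (B2 f N)) atTop (𝓝 1)

/-- The normalised values of `f` at the points `x, T x, T² x, ...` are at most `u₀, u₁, u₂, ...`. -/
def Window (f a b : ℕ → ℝ) (U : List ℝ) (x : ℤ) : Prop := ∀ (i : ℕ) (hi : i < U.length),
  f (T^[i] x).natAbs ≤ a (T^[i] x).natAbs + U[i] * b (T^[i] x).natAbs

/-- The normalised values of `f` at the points `x, T x, T² x, ...` are in the intervals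
`(u₀, v₀], (u₁, v₁], (u₂, v₂], ...`. -/
def InBoxes (f a b : ℕ → ℝ) (B : List (ℝ × ℝ)) (x : ℤ) : Prop := ∀ (i : ℕ) (hi : i < B.length),
  a (T^[i] x).natAbs + B[i].1 * b (T^[i] x).natAbs < f (T^[i] x).natAbs ∧
    f (T^[i] x).natAbs ≤ a (T^[i] x).natAbs + B[i].2 * b (T^[i] x).natAbs

/-- The joint distribution function of the first states of the stationary Markov chain which keeps its
value with probability `1 / 2` and takes a fresh standard normal value with probability `1 / 2`. -/
noncomputable def V : List ℝ → ℝ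
  | [] => 1
  | [u] => Phi u
  | u :: v :: U => (V (min u v :: U) + Phi u * V (v :: U)) / 2
termination_by U => U.length

lemma V_eq : ∀ U : List ℝ, V U = H998_EK.Vl U
  | [] => by rw [V, H998_EK.Vl]
  | [u] => by rw [V, H998_EK.Vl]; rfl
  | u :: v :: U => by rw [V, H998_EK.Vl, V_eq (min u v :: U), V_eq (v :: U)]; rfl
termination_by U => U.length

lemma window_cons (f a b : ℕ → ℝ) (u : ℝ) (U : List ℝ) (x : ℤ) :
    Window f a b (u :: U) x ↔ H998_EK.Ev f a b u x.natAbs ∧ Window f a b U (T x) := by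
  unfold Window
  constructor
  · intro h
    refine ⟨h 0 (by simp), fun i hi => ?_⟩
    have := h (i + 1) (by simpa using hi)
    simpa [Function.iterate_succ_apply] using this
  · rintro ⟨h0, h⟩ i hi
    rcases i with _ | i
    · exact h0
    · have := h i (by simpa using hi)
      simpa [Function.iterate_succ_apply] using this

open scoped Classical in
lemma window_ind (f a b : ℕ → ℝ) : ∀ (U : List ℝ) (x : ℤ),
    (if Window f a b U x then (1 : ℝ) else 0) = H998_EK.WZ f a b T U x
  | [], x => by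
    rw [H998_EK.WZ, if_pos]
    intro i hi
    simp at hi
  | u :: U, x => by
    rw [H998_EK.WZ, ← window_ind f a b U (T x)]
    unfold H998_EK.ie
    by_cases h1 : H998_EK.Ev f a b u x.natAbs <;> by_cases h2 : Window f a b U (T x) <;>
      simp [window_cons, h1, h2]

open scoped Classical in
lemma general {f a b : ℕ → ℝ} (hf : Admissible f) (hn : Normalising f a b) {U : List ℝ} (hU : U ≠ []) :
    HasMeanAlongOrbits (fun x => if Window f a b U x then 1 else 0) (V U) := by
  intro κ ε hκ hε
  refine H998_TP.windowsI (T := T) (fun _ => rfl) (W := ℕ → ℝ) (fun w => ∀ i, |w i| ≤ 1)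
    (fun w t n => |∑ i ∈ range t, w i * ((if Window f a b U (T^[i] n) then 1 else 0) - V U)|) ?_ κ ε hκ hε
  intro κ ε hκ hε
  have h := H998_EK.window_law (T := T) (fun _ => rfl) ⟨hf.add, hf.le_one⟩ hf.unbounded
    ⟨hn.centre, hn.scale⟩ hU hκ hε
  obtain ⟨N₀, hN₀⟩ := h
  refine ⟨N₀, fun N hN w hw => ?_⟩
  have h1 := hN₀ N hN ⟨w, hw⟩
  simp only [window_ind, V_eq]
  exact h1

/-- Mertens' theorem for a function which is one at the primes -/
lemma mertens {f : ℕ → ℝ} (h1 : ∀ p : ℕ, p.Prime → f p = 1) :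
    (∀ N, A f N = B2 f N) ∧ ∃ C : ℝ, ∀ N : ℕ, 3 ≤ N → |B2 f N - Real.log (Real.log N)| ≤ C := by
  have e1 : ∀ N, A f N = ∑ p ∈ (Icc 1 N).filter Nat.Prime, (1 : ℝ) / p := by
    intro N
    unfold A
    apply sum_congr rfl
    intro p hp
    rw [h1 p (mem_filter.1 hp).2]
  have e2 : ∀ N, B2 f N = ∑ p ∈ (Icc 1 N).filter Nat.Prime, (1 : ℝ) / p := by
    intro N
    unfold B2
    apply sum_congr rfl
    intro p hp
    rw [h1 p (mem_filter.1 hp).2, one_pow]
  obtain ⟨C, hC⟩ := Erdos456.Mert.mertens_inv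
  exact ⟨fun N => by rw [e1, e2], C, fun N hN => by rw [e2]; exact hC N hN⟩

lemma loglog_tendsto : Tendsto (fun N : ℕ => Real.log (Real.log N)) atTop atTop :=
  (Real.tendsto_log_atTop.comp Real.tendsto_log_atTop).comp tendsto_natCast_atTop_atTop

lemma unbdd {f : ℕ → ℝ} (h1 : ∀ p : ℕ, p.Prime → f p = 1) : Tendsto (B2 f) atTop atTop := by
  obtain ⟨_, C, hC⟩ := mertens h1
  have h2 : Tendsto (fun N : ℕ => Real.log (Real.log N) - C) atTop atTop :=
    tendsto_atTop_add_const_right _ (-C) loglog_tendsto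
  refine tendsto_atTop_mono' _ ?_ h2
  filter_upwards [eventually_ge_atTop 3] with N hN
  have := (abs_le.1 (hC N hN)).1
  linarith

lemma normalising {f : ℕ → ℝ} (h1 : ∀ p : ℕ, p.Prime → f p = 1) :
    Normalising f (fun N => Real.log (Real.log N)) (fun N => Real.sqrt (Real.log (Real.log N))) := by
  obtain ⟨hAB, C, hC⟩ := mertens h1
  have hub := unbdd h1
  have hC0 : 0 ≤ C := (abs_nonneg _).trans (hC 3 le_rfl)
  constructor
  · have hs : Tendsto (fun N => C / Real.sqrt (B2 f N)) atTop (𝓝 0) :=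
      Tendsto.const_div_atTop (Real.tendsto_sqrt_atTop.comp hub) C
    apply squeeze_zero_norm' _ hs
    filter_upwards [eventually_ge_atTop 3] with N hN
    rw [Real.norm_eq_abs, abs_div, abs_of_nonneg (Real.sqrt_nonneg _)]
    apply div_le_div_of_nonneg_right _ (Real.sqrt_nonneg _)
    rw [hAB, abs_sub_comm]
    exact hC N hN
  · have hs : Tendsto (fun N => C / B2 f N) atTop (𝓝 0) := Tendsto.const_div_atTop hub C
    have h2 : Tendsto (fun N : ℕ => Real.log (Real.log N) / B2 f N) atTop (𝓝 1) := by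
      rw [tendsto_iff_dist_tendsto_zero]
      refine squeeze_zero' (Eventually.of_forall fun _ => dist_nonneg) ?_ hs
      filter_upwards [eventually_ge_atTop 3, hub.eventually (eventually_gt_atTop 0)] with N hN hpos
      have : Real.log (Real.log N) / B2 f N - 1 = (Real.log (Real.log N) - B2 f N) / B2 f N := by
        field_simp
      rw [Real.dist_eq, this, abs_div, abs_of_pos hpos]
      apply div_le_div_of_nonneg_right _ hpos.le
      rw [abs_sub_comm]
      exact hC N hN
    have h3 := (Real.continuous_sqrt.tendsto 1).comp h2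
    rw [Real.sqrt_one] at h3
    refine h3.congr' ?_
    filter_upwards [loglog_tendsto.eventually (eventually_ge_atTop 0)] with N hN
    exact Real.sqrt_div hN _

lemma boxes {f a b : ℕ → ℝ} (hf : Admissible f) (hn : Normalising f a b) {B : List (ℝ × ℝ)} (hB : B ≠ [])
    (hB' : ∀ p ∈ B, p.1 < p.2) {α : ℝ} (hα : 0 < α) (hα1 : α < 1) {ε : ℝ} (hε : 0 < ε) :
    ∃ Z₀ : ℝ, 2 ≤ Z₀ ∧ ∀ (Z : ℝ) (N : ℕ), Z₀ ≤ Z → Z ≤ N →
      (Set.ncard {n : ℤ | n ≠ 0 ∧ |n| ≤ N ∧ ¬ ∃ k : ℕ, Z ^ α ≤ |((T^[k] n : ℤ) : ℝ)| ∧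
        |((T^[k] n : ℤ) : ℝ)| ≤ Z ∧ InBoxes f a b B (T^[k] n)} : ℝ) ≤ ε * N := by
  refine H998_TP.window_iter (T := T) (fun _ => rfl) (Q := InBoxes f a b B) hα
    (show α < (α + 1) / 2 by linarith) ?_ hε
  intro c hc
  have h := H998_EK.box_few (T := T) (fun _ => rfl) ⟨hf.add, hf.le_one⟩ hf.unbounded
    ⟨hn.centre, hn.scale⟩ hB hB' (show 0 < (α + 1) / 2 by linarith) (show (α + 1) / 2 < 1 by linarith)
    le_rfl hc
  refine Pool.Agent.R344.SP.Few.mono h le_rfl id ?_
  rintro _ n _ h1 ⟨k, g1, g2, g3⟩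
  refine h1 ⟨k, g1, g2, fun i hi => ?_⟩
  obtain ⟨g4, g5⟩ := g3 i hi
  exact ⟨not_le.1 g4, g5⟩

open scoped ArithmeticFunction.omega in
lemma omega_adm : Admissible (fun N => (ω N : ℝ)) ∧ Normalising (fun N => (ω N : ℝ))
    (fun N => Real.log (Real.log N)) (fun N => Real.sqrt (Real.log (Real.log N))) := by
  have h1 : ∀ p : ℕ, p.Prime → (ω p : ℝ) = 1 := by
    intro p hp
    rw [ArithmeticFunction.cardDistinctFactors_apply_prime hp]
    norm_num
  refine ⟨⟨?_, ?_, unbdd h1⟩, normalising h1⟩
  · intro m n _ _ hmn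
    rw [ArithmeticFunction.cardDistinctFactors_mul hmn]
    push_cast
    rfl
  · intro p hp
    rw [h1 p hp]
    norm_num

open scoped ArithmeticFunction.Omega in
lemma Omega_adm : Admissible (fun N => (Ω N : ℝ)) ∧ Normalising (fun N => (Ω N : ℝ))
    (fun N => Real.log (Real.log N)) (fun N => Real.sqrt (Real.log (Real.log N))) := by
  have h1 : ∀ p : ℕ, p.Prime → (Ω p : ℝ) = 1 := by
    intro p hp
    rw [ArithmeticFunction.cardFactors_apply_prime hp]
    norm_num
  refine ⟨⟨?_, ?_, unbdd h1⟩, normalising h1⟩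
  · intro m n hm hn _
    rw [ArithmeticFunction.cardFactors_mul (by omega) (by omega)]
    push_cast
    rfl
  · intro p hp
    rw [h1 p hp]
    norm_num

open scoped Classical ArithmeticFunction.omega ArithmeticFunction.Omega in
theorem result :
    (∀ f a b : ℕ → ℝ, Admissible f → Normalising f a b →
      ∀ B : List (ℝ × ℝ), B ≠ [] → (∀ p ∈ B, p.1 < p.2) → ∀ α ε : ℝ, 0 < α → α < 1 → 0 < ε →
        ∃ Z₀ : ℝ, 2 ≤ Z₀ ∧ ∀ (Z : ℝ) (N : ℕ), Z₀ ≤ Z → Z ≤ N →
          (Set.ncard {n : ℤ | n ≠ 0 ∧ |n| ≤ N ∧ ¬ ∃ k : ℕ, Z ^ α ≤ |((T^[k] n : ℤ) : ℝ)| ∧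
            |((T^[k] n : ℤ) : ℝ)| ≤ Z ∧ InBoxes f a b B (T^[k] n)} : ℝ) ≤ ε * N) ∧
    (∀ f a b : ℕ → ℝ, Admissible f → Normalising f a b → ∀ U : List ℝ, U ≠ [] →
      HasMeanAlongOrbits (fun x => if Window f a b U x then 1 else 0) (V U)) ∧
    (Admissible (fun N => (ω N : ℝ)) ∧ Normalising (fun N => (ω N : ℝ))
      (fun N => Real.log (Real.log N)) (fun N => Real.sqrt (Real.log (Real.log N)))) ∧
    (Admissible (fun N => (Ω N : ℝ)) ∧ Normalising (fun N => (Ω N : ℝ))
      (fun N => Real.log (Real.log N)) (fun N => Real.sqrt (Real.log (Real.log N)))) :=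
  ⟨fun _ _ _ hf hn _ hB hB' _ _ hα hα1 hε => boxes hf hn hB hB' hα hα1 hε,
    fun _ _ _ hf hn _ hU => general hf hn hU, omega_adm, Omega_adm⟩

end Pool.Agent.Results.MP_d02c56_nt.ErdosKacAlongOrbits
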