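import Mathlib
import Pool.Agent.H977.SP.Cycles

set_option autoImplicit false

/-!
# The `S`-parts of the terms of Collatz trajectories and cycles

Let `S` be a finite set of primes, and let `[z]_S` be the largest divisor of `z` composed of primes in `S`.
For given `m` and `ε > 0` the product of the `S`-parts of any `m` odd terms among the first `c log |x|`
terms of the trajectory of `x` is at most `|x| ^ (1 + ε)` if `|x|` is large; one single term can have
an `S`-part `|x|`, so the exponent is optimal. Consequently integers whose `S`-part is at least a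
fixed power `|z| ^ η` are rare among the odd terms: in a cycle with `p` elements of absolute value at
least `m` there are at most `K p / log m` of them, and in an unbounded trajectory they have density zero.

Proof: `2 ^ h C ^ i (x) = 3 ^ k x + c_i` with `|c_i| ≤ 5 ^ i`, so that multiples of the `m` terms are
different integers close to each other. For every prime of `S` only one of them can be divisible by a
high power of it. Ridout's theorem with moving targets (deduced from the subspace theorem by induction
on the number of targets) gives the result.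
-/

namespace Pool.Agent.Results.MP_d02c56_nt.LargeSParts

open Finset Filter

/-- The Collatz map on the integers. -/
def C (x : ℤ) : ℤ := if x % 2 = 0 then x / 2 else 3 * x + 1

/-- The `S`-part of an integer (for prime numbers, only the primes of the set `S` matter). -/
def sPart (S : Finset ℕ) (x : ℤ) : ℕ := ∏ p ∈ S, p ^ (x.natAbs.factorization p)

/-- `z` is odd and its `S`-part is at least `|z| ^ η`. -/
def Large (S : Finset ℕ) (η : ℝ) (z : ℤ) : Prop := z % 2 = 1 ∧ |(z : ℝ)| ^ η ≤ sPart S z

lemma C_eq : C = Pool.Agent.H977.SP.G 3 1 0 := by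
  funext x
  unfold C Pool.Agent.H977.SP.G
  simp

open Classical in
/-- (1) For `m` odd terms of a piece of length `c log |x|` the product of the `S`-parts is at most
`|x| ^ (1 + ε)`. (2) In a cycle with `p` elements of absolute value at least `m` at most `K p / log m`
elements are odd with `S`-part at least `|z| ^ η`. (3) In a trajectory which does not end in a cycle
these elements have density zero. -/
theorem result (S : Finset ℕ) :
    (∀ (m : ℕ) (ε : ℝ), 0 < ε → ∃ c : ℝ, 0 < c ∧ ∃ x₀ : ℝ, ∀ x : ℤ, x₀ ≤ |(x : ℝ)| →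
      ∀ I : Finset ℕ, I.card = m → (∀ i ∈ I, (i : ℝ) ≤ c * Real.log |(x : ℝ)| ∧ C^[i] x % 2 = 1) →
      ∏ i ∈ I, (sPart S (C^[i] x) : ℝ) ≤ |(x : ℝ)| ^ (1 + ε)) ∧
    (∀ η : ℝ, 0 < η → ∃ K : ℝ, ∀ (x : ℤ) (p m : ℕ), 1 ≤ p → C^[p] x = x → 2 ≤ m →
      (∀ i < p, (m : ℤ) ≤ |C^[i] x|) →
      (((range p).filter fun i => Large S η (C^[i] x)).card : ℝ) ≤ K * p / Real.log m) ∧
    (∀ η : ℝ, 0 < η → ∀ x : ℤ, (∀ i j : ℕ, i ≠ j → C^[i] x ≠ C^[j] x) →
      Tendsto (fun N : ℕ => (((range N).filter fun i => Large S η (C^[i] x)).card : ℝ) / N)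
        atTop (nhds 0)) := by
  refine ⟨?_, ?_, ?_⟩
  · intro m ε hε
    obtain ⟨c, hc, x₀, h⟩ := Pool.Agent.H977.SP.traj_windows (a := 3) (b := 1) (r := 0)
      (by norm_num) (by norm_num) (by norm_num) S m ε hε
    refine ⟨c, hc, max 1 x₀, ?_⟩
    intro x hx I hI hodd
    rw [C_eq] at hodd ⊢
    have hx1 : 1 ≤ |(x : ℝ)| := (le_max_left _ _).trans hx
    have h1 := h x ((le_max_right _ _).trans hx) ⌊c * Real.log |(x : ℝ)|⌋₊
      (Nat.floor_le (mul_nonneg hc.le (Real.log_nonneg hx1))) I hI
      (fun i hi => ⟨Nat.le_floor (hodd i hi).1, (hodd i hi).2⟩)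
    have hpos : ∀ i ∈ I, (0 : ℝ) < sPart S ((Pool.Agent.H977.SP.G 3 1 0)^[i] x) := by
      intro i hi
      have h2 : (Pool.Agent.H977.SP.G 3 1 0)^[i] x ≠ 0 := by
        have := (hodd i hi).2
        intro h0
        rw [h0] at this
        norm_num at this
      have h3 : 0 < sPart S ((Pool.Agent.H977.SP.G 3 1 0)^[i] x) := by
        unfold sPart
        apply Finset.prod_pos
        intro p _
        by_cases hp : p.Prime
        · exact pow_pos hp.pos _
        · rw [Nat.factorization_eq_zero_of_not_prime _ hp, pow_zero]; exact one_pos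
      exact_mod_cast h3
    have h1' : ∑ i ∈ I, Real.log (sPart S ((Pool.Agent.H977.SP.G 3 1 0)^[i] x)) ≤
        (1 + ε) * Real.log |(x : ℝ)| := h1
    rw [← Real.log_prod (fun i hi => (hpos i hi).ne')] at h1'
    have h2 : (1 + ε) * Real.log |(x : ℝ)| = Real.log (|(x : ℝ)| ^ (1 + ε)) :=
      (Real.log_rpow (by linarith) _).symm
    rw [h2] at h1'
    exact (Real.log_le_log_iff (Finset.prod_pos hpos) (Real.rpow_pos_of_pos (by linarith) _)).1 h1'
  · intro η hη
    obtain ⟨K, hK⟩ := Pool.Agent.H977.SP.cycles (a := 3) (b := 1) (r := 0)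
      (by norm_num) (by norm_num) (by norm_num) (by norm_num) S η hη
    refine ⟨K, fun x p m hp hper hm hbig => ?_⟩
    rw [C_eq] at hper hbig ⊢
    refine hK x p m hp hper hm (fun i hi => ?_)
    rw [← Int.cast_abs]
    exact_mod_cast hbig i hi
  · intro η hη x hinj
    rw [C_eq] at hinj ⊢
    refine Pool.Agent.H977.SP.unbounded (a := 3) (b := 1) (r := 0)
      (by norm_num) (by norm_num) (by norm_num) S η hη x ?_
    intro i j hij
    by_contra hne
    exact hinj i j hne hij

end Pool.Agent.Results.MP_d02c56_nt.LargeSParts
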