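import Mathlib
import Pool.Agent.Helper53.CP.MainP

/-!
# Values of a polynomial in the cycles and trajectories of the Collatz map on the integers

Let `f` be a polynomial of degree `d ≥ 2` with rational coefficients, for example `X ^ d`, or integer
valued, like the binomial coefficients. How often can an odd element of a trajectory of the
(accelerated) Collatz map `T` be a value `f u` at an integer `u`? Call `f` exceptional if
`f = c (X - r) ^ d + e`, where `e` is an odd rational number that is periodic under `T`, and `r` is a
rational number with denominator prime to `6`. If `f` is not exceptional (squares, cubes, ...,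
`c X ^ d`, `X ^ 2 + 3`, all polynomials that are not of the form `c (X - r) ^ d + e`) then among the
elements of a trajectory from `x` to `T ^ n x` there are at most `d ^ 2` odd values of `f`, as long as
`n` is at most a constant times the logarithm of the elements; so a cycle with `p` elements of absolute
values at least `m` has at most `C p / log m` elements that are odd values of `f`. If `f` is exceptional
and integer valued there are trajectories, arbitrarily far from zero, in which the odd values of `f`
occupy a positive proportion of arbitrarily long stretches. The polynomial `X ^ d + e`, with an integer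
`e`, is exceptional if and only if `e` is an odd element of a cycle.

Method. For two odd values `x = f u` and `T^j x = f v` such that `j` and the number `a` of the odd steps
between them are divisible by `d`, the relation `2 ^ j f v = 3 ^ a f u + φ` is treated by Runge's method
(uniformly in `j`, `a`): it implies that `f = c (X - r) ^ d + e` with `e (2 ^ j - 3 ^ a) = φ`, and this
says that `e` is the rational periodic point whose parity word is that of `x`.
-/

set_option autoImplicit false

namespace Pool.Agent.Results.MP_d02c56_nt.PolynomialValues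

open Polynomial Pool.Agent.Helper53.CD Pool.Agent.Helper53.CP

/-- Let `f` be a rational polynomial of degree `d ≥ 2`; a value of `f` is `f u` with an integer `u`.
(1) If `f` is not exceptional there is `C` such that among `x, T x, ..., T^(n-1) x`, if all have
absolute value at least `C 3 ^ (n C)`, at most `d ^ 2` are odd values of `f`.
(2) If `f` is not exceptional there is `C` such that in every cycle with `p` elements, all of absolute
value at least `m ≥ 2`, at most `C p / log m` are odd values of `f`.
(3) Let `f` be integer valued. There is `C` such that among any `n` consecutive elements of a trajectory,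
all of absolute value at least `m ≥ 2`, at most `C (1 + n / log m)` are odd values of `f`, if and only
if `f` is not exceptional.
(4) If `f` is exceptional and integer valued then there is `J` such that for all `N` and `m` there is `x`
such that `x, ..., T^(N-1) x` have absolute value at least `m` and at least `N / J` of them are odd
values of `f`.
(5) The polynomial `X ^ n + e`, with `n ≥ 2` and an integer `e`, is exceptional if and only if `e` is odd
and an element of a cycle of `T`. -/
theorem result :
    (∀ f : ℚ[X], 2 ≤ f.natDegree → ¬ Exceptional f →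
      (∃ C : ℕ, ∀ (x : ℤ) (n : ℕ), (∀ t < n, ((C * 3 ^ (n * C) : ℕ) : ℤ) ≤ |T^[t] x|) →
        Set.ncard {t | t < n ∧ (T^[t] x % 2 = 1 ∧ ∃ u : ℤ, f.eval (u : ℚ) = T^[t] x)} ≤
          f.natDegree ^ 2) ∧
      (∃ C : ℕ, ∀ (x : ℤ) (p m : ℕ), 1 ≤ p → T^[p] x = x → 2 ≤ m →
        (∀ t < p, (m : ℤ) ≤ |T^[t] x|) →
        (Set.ncard {t | t < p ∧ (T^[t] x % 2 = 1 ∧ ∃ u : ℤ, f.eval (u : ℚ) = T^[t] x)} : ℝ) ≤
          C * (p / Real.log m))) ∧
    (∀ f : ℚ[X], 2 ≤ f.natDegree → (∀ u : ℤ, ∃ y : ℤ, f.eval (u : ℚ) = y) →
      ((∃ C : ℕ, ∀ (x : ℤ) (n m : ℕ), 2 ≤ m → (∀ t < n, (m : ℤ) ≤ |T^[t] x|) →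
        (Set.ncard {t | t < n ∧ (T^[t] x % 2 = 1 ∧ ∃ u : ℤ, f.eval (u : ℚ) = T^[t] x)} : ℝ) ≤
          C * (1 + n / Real.log m)) ↔ ¬ Exceptional f) ∧
      (Exceptional f → ∃ J : ℕ, 1 ≤ J ∧ ∀ N m : ℕ, ∃ x : ℤ, (∀ t < N, (m : ℤ) ≤ |T^[t] x|) ∧
        N ≤ J * Set.ncard {t | t < N ∧
          (T^[t] x % 2 = 1 ∧ ∃ u : ℤ, f.eval (u : ℚ) = T^[t] x)})) ∧
    (∀ (n : ℕ) (e : ℤ), 2 ≤ n →
      (Exceptional (X ^ n + C (e : ℚ)) ↔ e % 2 = 1 ∧ ∃ p : ℕ, 1 ≤ p ∧ T^[p] e = e)) := by
  refine ⟨?_, ?_, fun n e hn => exceptional_iff hn⟩
  · intro f hd hf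
    obtain ⟨C₀, hC₀, hW⟩ := poly_window f hd hf
    obtain ⟨C, -, hC⟩ := stretch_of_window
      (fun y => y % 2 = 1 ∧ ∃ u : ℤ, f.eval (u : ℚ) = y) C₀ (f.natDegree ^ 2) hC₀ hW
    exact ⟨⟨C₀, hW⟩, C, hC⟩
  · intro f hd hint
    refine ⟨⟨?_, ?_⟩, many f hd hint⟩
    · intro h hf
      exact not_bounded f hd hint hf h
    · intro hf
      obtain ⟨C₀, hC₀, hW⟩ := poly_window f hd hf
      obtain ⟨C, hC, -⟩ := stretch_of_window
        (fun y => y % 2 = 1 ∧ ∃ u : ℤ, f.eval (u : ℚ) = y) C₀ (f.natDegree ^ 2) hC₀ hW
      exact ⟨C, hC⟩

end Pool.Agent.Results.MP_d02c56_nt.PolynomialValues
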